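import Pool.Agent.Results.MP_417bbc_pr.BiasedNoiseErgodic

set_option autoImplicit false

open MeasureTheory ProbabilityTheory Filter Topology
open scoped ENNReal Pointwise

/-!
# Monotone automata which do not erode islands, under biased noise
-/

namespace Pool.Agent.Y203.Biased

open Pool.Agent.H443R3 Pool.Agent.H443R3.Attractive
open Pool.Agent.Results.MP_417bbc_pr.BiasedNoiseErgodic (pmf_sum pmf_ext lam)

variable {d : ℕ}

/-- A monotone binary cellular automaton on `ℤ^d`: a finite neighbourhood and a monotone local
rule. -/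
structure MCA (d : ℕ) where
  nbhd : Finset (Site d)
  f : (nbhd → Bool) → Bool
  mono : ∀ u v, u ≤ v → f u ≤ f v

/-- The action of the automaton on configurations. -/
def MCA.map (F : MCA d) (x : Config d Bool) : Config d Bool := fun i => F.f (fun n => x (i + n))

/-- The configuration with the symbol `b` exactly on the finite set `K`. -/
def island (b : Bool) (K : Finset (Site d)) : Config d Bool := fun i => if i ∈ K then b else !b

/-- Every finite island of the symbol `b`, in a sea of the other symbol, disappears in finite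
time. -/
def MCA.Erodes (F : MCA d) (b : Bool) : Prop :=
  ∀ K : Finset (Site d), ∃ t : ℕ, ∀ i, F.map^[t] (island b K) i = !b

/-- The automaton perturbed by the zero-range noise `θ`: the new symbol at `i` is drawn from
`θ (F(x)_i)`, independently at distinct sites. -/
noncomputable def noisy (F : MCA d) (θ : Bool → PMF Bool) : PCA d Bool where
  nbhd := F.nbhd
  rule := fun u => θ (F.f u)

/-! ### The noisy automaton is attractive -/

variable {F : MCA d} {θ : Bool → PMF Bool}

/-- The action of the noise variable. -/
def psi (F : MCA d) (u : F.nbhd → Bool) (w : Fin 3) : Bool :=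
  if w = 1 then true else if w = 2 then false else F.f u

theorem psi_mono (F : MCA d) (u v : F.nbhd → Bool) (h : u ≤ v) (w : Fin 3) :
    psi F u w ≤ psi F v w := by
  unfold psi
  split_ifs
  · exact le_rfl
  · exact le_rfl
  · exact F.mono u v h

theorem theta_tt {q : ℝ} (hq : 0 ≤ q) (h2 : θ true false = ENNReal.ofReal q) :
    θ true true = ENNReal.ofReal (1 - q) := by
  have h := pmf_sum (θ true)
  have hfin : θ true false ≠ ∞ := PMF.apply_ne_top _ _
  rw [ENNReal.ofReal_sub _ hq, ENNReal.ofReal_one, ← h2, ← h, ENNReal.add_sub_cancel_right hfin]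

theorem theta_bb (b : Bool) {q : ℝ} (hq : 0 ≤ q) (h2 : θ b (!b) = ENNReal.ofReal q) :
    θ b b = ENNReal.ofReal (1 - q) := by
  have h := pmf_sum (θ b)
  have hfin : θ b (!b) ≠ ∞ := PMF.apply_ne_top _ _
  have h' : θ b b + θ b (!b) = 1 := by
    cases b with
    | true => exact h
    | false => rw [add_comm]; exact h
  rw [ENNReal.ofReal_sub _ hq, ENNReal.ofReal_one, ← h2, ← h', ENNReal.add_sub_cancel_right hfin]

/-- The noisy automaton is attractive. -/
noncomputable def rep {p q : ℝ} (hp : 0 ≤ p) (hq : 0 ≤ q) (h : p + q ≤ 1)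
    (h1 : θ false true = ENNReal.ofReal p) (h2 : θ true false = ENNReal.ofReal q) :
    Rep (noisy F θ) where
  lam := lam p q hp hq h
  psi := psi F
  rule_eq := by
    intro u
    apply pmf_ext
    rw [PMF.map_apply, tsum_fintype, Fin.sum_univ_three]
    have e0 : lam p q hp hq h 0 = ENNReal.ofReal (1 - p - q) := by
      unfold lam; rw [PMF.ofFintype_apply]; rfl
    have e1 : lam p q hp hq h 1 = ENNReal.ofReal p := by
      unfold lam; rw [PMF.ofFintype_apply]; rfl
    rw [e0, e1]
    show θ (F.f u) true = _
    cases hm : F.f u with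
    | false => simp [psi, hm, h1]
    | true =>
      rw [theta_tt hq h2]
      have : ENNReal.ofReal (1 - q) = ENNReal.ofReal (1 - p - q) + ENNReal.ofReal p := by
        rw [← ENNReal.ofReal_add (by linarith) hp]
        congr 1
        ring
      rw [this]
      simp [psi, hm]
  mono := psi_mono F

/-! ### One step -/

/-- The indicator of the event that all sites of `S` carry `b`. -/
noncomputable def full (b : Bool) (S : Finset (Site d)) (x : Config d Bool) : ℝ≥0∞ :=
  ind S (fun _ => b) x

theorem full_eq (b : Bool) (S : Finset (Site d)) (x : Config d Bool) :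
    full b S x = if ∀ i ∈ S, x i = b then 1 else 0 := by
  unfold full ind
  by_cases h : ∀ i ∈ S, x i = b
  · rw [if_pos h, Set.indicator_of_mem]
    exact fun a => h a a.2
  · rw [if_neg h, Set.indicator_of_notMem]
    exact fun h' => h (fun i hi => h' ⟨i, hi⟩)

theorem full_dependsOn (b : Bool) (S : Finset (Site d)) :
    DependsOn (full b S) (S : Set (Site d)) := dependsOn_cyl S (fun _ => b)

theorem full_le_one (b : Bool) (S : Finset (Site d)) (x : Config d Bool) : full b S x ≤ 1 := by
  rw [full_eq]; split_ifs <;> simp

theorem op_full (b : Bool) (S : Finset (Site d)) (x : Config d Bool) :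
    (noisy F θ).op (full b S) x = ∏ i ∈ S, θ (F.map x i) b := by
  have h1 : (noisy F θ).op (full b S) x = (noisy F θ).step x (cyl S (fun _ => b)) := by
    unfold PCA.op
    exact lintegral_ind _ _ _
  have h2 : (cyl S (fun _ => b) : Set (Config d Bool)) = Set.pi (S : Set (Site d)) (fun _ => {b}) := by
    ext y
    simp only [cyl, Set.mem_pi, Set.mem_singleton_iff, Set.mem_ofPred_eq]
    constructor
    · intro h i hi
      exact h ⟨i, hi⟩
    · intro h a
      exact h a a.2
  rw [h1, h2]
  unfold PCA.step
  rw [Measure.infinitePi_pi _ (fun _ _ => MeasurableSet.singleton b)]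
  apply Finset.prod_congr rfl
  intro i _
  exact PMF.toMeasure_apply_singleton _ _ (MeasurableSet.singleton b)

theorem op_iter_mono {f g : Config d Bool → ℝ≥0∞} (hfg : ∀ y, f y ≤ g y) (m : ℕ)
    (y : Config d Bool) : (noisy F θ).op^[m] f y ≤ (noisy F θ).op^[m] g y := by
  induction m generalizing f g with
  | zero => exact hfg y
  | succ m ih => exact ih ((noisy F θ).op_mono hfg)

/-- Monotonicity of the automaton with respect to the symbol `b`. -/
theorem map_b (b : Bool) {x y : Config d Bool} {i : Site d}
    (h : ∀ n ∈ F.nbhd, y (i + n) = b → x (i + n) = b) (hy : F.map y i = b) : F.map x i = b := by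
  unfold MCA.map at hy ⊢
  cases b with
  | true =>
    have h1 : (fun n : F.nbhd => y (i + n)) ≤ fun n : F.nbhd => x (i + n) := by
      intro n
      have := h n n.2
      show y (i + n) ≤ x (i + n)
      cases hyn : y (i + n) with
      | false => exact Bool.false_le _
      | true => rw [this hyn]
    have h2 := F.mono _ _ h1
    rw [hy] at h2
    exact Bool.eq_true_of_true_le h2
  | false =>
    have h1 : (fun n : F.nbhd => x (i + n)) ≤ fun n : F.nbhd => y (i + n) := by
      intro n
      have := h n n.2
      show x (i + n) ≤ y (i + n)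
      cases hyn : y (i + n) with
      | true => exact Bool.le_true _
      | false => rw [this hyn]
    have h2 := F.mono _ _ h1
    rw [hy] at h2
    exact Bool.eq_false_of_le_false h2

/-! ### The deterministic chain -/

/-- The number of sites in the pasts of `Z`. -/
def vol (F : MCA d) : ℕ → Finset (Site d) → ℕ
  | 0, _ => 0
  | t + 1, Z => Z.card + vol F t (Z + F.nbhd)

theorem vol_mono_set (t : ℕ) {Z Z' : Finset (Site d)} (h : Z ⊆ Z') : vol F t Z ≤ vol F t Z' := by
  induction t generalizing Z Z' with
  | zero => exact le_rfl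
  | succ t ih =>
    exact add_le_add (Finset.card_le_card h) (ih (Finset.add_subset_add_right h))

theorem vol_mono_time {s t : ℕ} (h : s ≤ t) (Z : Finset (Site d)) : vol F s Z ≤ vol F t Z := by
  induction t generalizing s Z with
  | zero =>
    have : s = 0 := by omega
    subst this; exact le_rfl
  | succ t ih =>
    cases s with
    | zero => exact Nat.zero_le _
    | succ s => exact Nat.add_le_add_left (ih (by omega) _) _

theorem chain (b : Bool) {δ : ℝ} (hδ0 : 0 ≤ δ) (hδ1 : δ ≤ 1)
    (hδ : θ b (!b) = ENNReal.ofReal δ) (t : ℕ) (Z : Finset (Site d)) (y x : Config d Bool)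
    (hZ : ∀ i ∈ Z, F.map^[t] y i = b) (hxy : ∀ i, y i = b → x i = b) :
    ENNReal.ofReal ((1 - δ) ^ vol F t Z) ≤ (noisy F θ).op^[t] (full b Z) x := by
  have hbb := theta_bb b hδ0 hδ
  have h0 : 0 ≤ 1 - δ := by linarith
  induction t generalizing Z with
  | zero =>
    have : full b Z x = 1 := by
      rw [full_eq, if_pos]
      exact fun i hi => hxy i (hZ i hi)
    simp [vol, this]
  | succ t ih =>
    set Z' : Finset (Site d) := (Z + F.nbhd).filter (fun i => F.map^[t] y i = b) with hZ'
    have hstep : ∀ z : Config d Bool, ENNReal.ofReal ((1 - δ) ^ Z.card) * full b Z' z ≤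
        (noisy F θ).op (full b Z) z := by
      intro z
      rw [full_eq]
      split_ifs with hz
      · rw [mul_one, op_full]
        have e : ∏ i ∈ Z, θ (F.map z i) b = ∏ _i ∈ Z, ENNReal.ofReal (1 - δ) := by
          apply Finset.prod_congr rfl
          intro i hi
          have h1 : F.map (F.map^[t] y) i = b := by
            have := hZ i hi
            rwa [Function.iterate_succ_apply'] at this
          have h2 : F.map z i = b := by
            refine map_b b (fun n hn hyn => hz _ ?_) h1
            rw [hZ', Finset.mem_filter]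
            exact ⟨Finset.add_mem_add hi hn, hyn⟩
          rw [h2, hbb]
        rw [e, Finset.prod_const, ← ENNReal.ofReal_pow h0]
      · rw [mul_zero]; exact bot_le
    have h1 := op_iter_mono (F := F) (θ := θ) hstep t x
    rw [op_iterate_mul _ (full_dependsOn b Z')] at h1
    rw [Function.iterate_succ_apply]
    refine le_trans ?_ h1
    have h2 := ih Z' (fun i hi => (Finset.mem_filter.1 hi).2)
    have h3 : vol F t Z' ≤ vol F t (Z + F.nbhd) := vol_mono_set t (Finset.filter_subset _ _)
    calc ENNReal.ofReal ((1 - δ) ^ vol F (t + 1) Z)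
        = ENNReal.ofReal ((1 - δ) ^ Z.card) * ENNReal.ofReal ((1 - δ) ^ vol F t (Z + F.nbhd)) := by
          rw [← ENNReal.ofReal_mul (pow_nonneg h0 _), ← pow_add]
          rfl
      _ ≤ ENNReal.ofReal ((1 - δ) ^ Z.card) * ENNReal.ofReal ((1 - δ) ^ vol F t Z') :=
          mul_le_mul' le_rfl
            (ENNReal.ofReal_le_ofReal (pow_le_pow_of_le_one h0 (by linarith) h3))
      _ ≤ _ := mul_le_mul' le_rfl h2

/-! ### Shifts -/

theorem map_shift (k : Site d) (x : Config d Bool) : F.map (shift k x) = shift k (F.map x) := by
  funext i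
  unfold MCA.map shift
  congr 1
  funext n
  congr 1
  abel

theorem map_iter_shift (t : ℕ) (k : Site d) (x : Config d Bool) :
    F.map^[t] (shift k x) = shift k (F.map^[t] x) := by
  induction t generalizing x with
  | zero => rfl
  | succ t ih => rw [Function.iterate_succ_apply, map_shift, ih, Function.iterate_succ_apply]

/-! ### The probability of the symbol `b` at the origin -/

theorem prob_ge (b : Bool) {ε δ : ℝ} (hε : 0 < ε) (hδ0 : 0 ≤ δ) (hsum : ε + δ ≤ 1)
    (h1 : θ (!b) b = ENNReal.ofReal ε) (h2 : θ b (!b) = ENNReal.ofReal δ)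
    {K : Finset (Site d)} (hK : ∀ t, ∃ i, F.map^[t] (island b K) i = b) (T : ℕ) (t : ℕ)
    (htT : t ≤ T) (x : Config d Bool) :
    ENNReal.ofReal ((1 - δ) ^ vol F T {0} * (1 - (1 - ε ^ K.card) ^ t)) ≤
      (noisy F θ).op^[t] (full b {0}) x := by
  have hbb := theta_bb b hδ0 h2
  have hd0 : 0 ≤ 1 - δ := by linarith
  have hd1 : 1 - δ ≤ 1 := by linarith
  set c : ℝ := (1 - δ) ^ vol F T {0} with hc
  have hc0 : 0 ≤ c := pow_nonneg hd0 _
  set p : ℝ := ε ^ K.card with hp
  have hp0 : 0 ≤ p := by positivity
  have hp1 : p ≤ 1 := pow_le_one₀ hε.le (by linarith)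
  induction t generalizing x with
  | zero => simp
  | succ t ih =>
    obtain ⟨z, hz⟩ := hK t
    -- the translated island
    set Kz : Finset (Site d) := K.image (fun i => i - z) with hKz
    have hcard : Kz.card = K.card := Finset.card_image_of_injective _ sub_left_injective
    have hr0 : 0 ≤ (1 - p) ^ t := pow_nonneg (by linarith) _
    have hr1 : (1 - p) ^ t ≤ 1 := pow_le_one₀ (by linarith) (by linarith)
    set a : ℝ := c * (1 - (1 - p) ^ t) with ha
    have ha0 : 0 ≤ a := mul_nonneg hc0 (by linarith)
    have hac : 0 ≤ c - a := by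
      have : c - a = c * (1 - p) ^ t := by rw [ha]; ring
      rw [this]; positivity
    -- the two lower bounds
    have hlow : ∀ y : Config d Bool, ENNReal.ofReal a + ENNReal.ofReal (c - a) * full b Kz y ≤
        (noisy F θ).op^[t] (full b {0}) y := by
      intro y
      rw [full_eq]
      split_ifs with hy
      · rw [mul_one, ← ENNReal.ofReal_add ha0 hac, add_sub_cancel]
        have h3 := chain (F := F) b hδ0 (by linarith) h2 t {0} (shift z (island b K)) y
          (by
            intro i hi
            rw [Finset.mem_singleton] at hi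
            subst hi
            rw [map_iter_shift]
            show F.map^[t] (island b K) (0 + z) = b
            rw [zero_add]
            exact hz)
          (by
            intro i hi
            apply hy
            have hi' : island b K (i + z) = b := hi
            unfold island at hi'
            by_cases hm : i + z ∈ K
            · exact Finset.mem_image.2 ⟨i + z, hm, by abel⟩
            · rw [if_neg hm] at hi'
              cases b <;> simp at hi')
        refine le_trans ?_ h3
        apply ENNReal.ofReal_le_ofReal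
        exact pow_le_pow_of_le_one hd0 hd1 (vol_mono_time (by omega) _)
      · rw [mul_zero, add_zero]
        exact ih (by omega) y
    rw [Function.iterate_succ_apply']
    have h4 := (noisy F θ).op_mono hlow x
    refine le_trans ?_ h4
    have hdep0 : DependsOn (fun _ : Config d Bool => ENNReal.ofReal a)
        ((∅ : Finset (Site d)) : Set (Site d)) := fun _ _ _ => rfl
    have hdep1 : DependsOn (fun y : Config d Bool => ENNReal.ofReal (c - a) * full b Kz y)
        (Kz : Set (Site d)) := by
      intro y y' hyy
      show ENNReal.ofReal (c - a) * full b Kz y = ENNReal.ofReal (c - a) * full b Kz y'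
      rw [full_dependsOn b Kz hyy]
    have e1 := op_iterate_add (Φ := noisy F θ) hdep0 hdep1 1 x
    have e2 := op_iterate_mul (Φ := noisy F θ) (ENNReal.ofReal (c - a)) (full_dependsOn b Kz) 1 x
    have e3 := op_iterate_const (Φ := noisy F θ) (ENNReal.ofReal a) 1 x
    simp only [Function.iterate_one] at e1 e2 e3
    rw [e1, e2, e3, op_full]
    have h5 : ENNReal.ofReal p ≤ ∏ i ∈ Kz, θ (F.map x i) b := by
      have : ∏ _i ∈ Kz, ENNReal.ofReal ε ≤ ∏ i ∈ Kz, θ (F.map x i) b := by
        apply Finset.prod_le_prod'
        intro i _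
        by_cases hb : F.map x i = b
        · rw [hb, hbb]
          exact ENNReal.ofReal_le_ofReal (by linarith)
        · have : F.map x i = !b := by
            cases hv : F.map x i <;> cases b <;> simp_all
          rw [this, h1]
      rwa [Finset.prod_const, hcard, ← ENNReal.ofReal_pow hε.le] at this
    calc ENNReal.ofReal (c * (1 - (1 - p) ^ (t + 1)))
        = ENNReal.ofReal (a + (c - a) * p) := by
          congr 1
          rw [ha, pow_succ]; ring
      _ = ENNReal.ofReal a + ENNReal.ofReal (c - a) * ENNReal.ofReal p := by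
          rw [ENNReal.ofReal_add ha0 (mul_nonneg hac hp0), ENNReal.ofReal_mul hac]
      _ ≤ _ := by gcongr

/-! ### The gap -/

theorem e_eq_full : (e 0 : Config d Bool → ℝ≥0∞) = full true {0} := by
  funext x
  rw [full_eq]
  unfold e
  simp

theorem e_add_full (x : Config d Bool) : e 0 x + full false {0} x = 1 := by
  rw [full_eq]
  unfold e
  cases h : x 0 <;> simp [h]

theorem gap_le (b : Bool) {ε δ : ℝ} (hε : 0 < ε) (hδ0 : 0 ≤ δ) (hsum : ε + δ ≤ 1)
    (h1 : θ (!b) b = ENNReal.ofReal ε) (h2 : θ b (!b) = ENNReal.ofReal δ)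
    {K : Finset (Site d)} (hK : ∀ t, ∃ i, F.map^[t] (island b K) i = b) (T : ℕ) :
    gap (noisy F θ) T ≤ (1 - ε ^ K.card) ^ T + vol F T {0} * δ := by
  have hd0 : 0 ≤ 1 - δ := by linarith
  have hr0 : 0 ≤ (1 - ε ^ K.card) ^ T :=
    pow_nonneg (by linarith [pow_le_one₀ (n := K.card) hε.le (by linarith : ε ≤ 1)]) _
  have hr1 : (1 - ε ^ K.card) ^ T ≤ 1 :=
    pow_le_one₀ (by linarith [pow_le_one₀ (n := K.card) hε.le (by linarith : ε ≤ 1)])
      (by linarith [pow_nonneg hε.le K.card])
  have hc1 : 1 - vol F T {0} * δ ≤ (1 - δ) ^ vol F T {0} := by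
    have := one_add_mul_le_pow (a := -δ) (by linarith) (vol F T {0})
    have e : 1 + ((vol F T {0} : ℕ) : ℝ) * -δ = 1 - vol F T {0} * δ := by ring
    rw [e] at this
    simpa [sub_eq_add_neg] using this
  have hc2 : (1 - δ) ^ vol F T {0} ≤ 1 := pow_le_one₀ hd0 (by linarith)
  have hc3 : 0 ≤ (1 - δ) ^ vol F T {0} := pow_nonneg hd0 _
  have key : ∀ x : Config d Bool, 1 - ((1 - ε ^ K.card) ^ T + vol F T {0} * δ) ≤
      ((noisy F θ).op^[T] (full b {0}) x).toReal := by
    intro x
    have h3 := prob_ge b hε hδ0 hsum h1 h2 hK T T le_rfl x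
    have hfin : (noisy F θ).op^[T] (full b {0}) x ≠ ∞ :=
      (((noisy F θ).op_iterate_le_one (full_le_one b {0}) T x).trans_lt ENNReal.one_lt_top).ne
    have h4 := (ENNReal.ofReal_le_iff_le_toReal hfin).1 h3
    refine le_trans ?_ h4
    nlinarith
  unfold gap
  cases b with
  | true =>
    have h3 := key bot
    have htop : ((noisy F θ).op^[T] (e 0) top).toReal ≤ 1 := by
      have := ENNReal.toReal_mono ENNReal.one_ne_top
        ((noisy F θ).op_iterate_le_one (e_le_one 0) T top)
      simpa using this
    rw [← e_eq_full] at h3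
    linarith
  | false =>
    have h3 := key top
    have hadd := op_iterate_add (Φ := noisy F θ) (e_dependsOn 0) (full_dependsOn false {0}) T top
    have e1 : (fun y : Config d Bool => e 0 y + full false {0} y) = fun _ => 1 := by
      funext y; exact e_add_full y
    rw [e1, op_iterate_const] at hadd
    have hfin : (noisy F θ).op^[T] (full false {0}) top ≠ ∞ :=
      (((noisy F θ).op_iterate_le_one (full_le_one false {0}) T top).trans_lt
        ENNReal.one_lt_top).ne
    have hadd' := congrArg ENNReal.toReal hadd
    rw [ENNReal.toReal_add (fin_e T 0 top) hfin, ENNReal.toReal_one] at hadd'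
    have hbot : 0 ≤ ((noisy F θ).op^[T] (e 0) bot).toReal := ENNReal.toReal_nonneg
    linarith

end Pool.Agent.Y203.Biased
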