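import Pool.Agent.Y203.Biased.Core

set_option autoImplicit false

open MeasureTheory ProbabilityTheory Filter Topology
open scoped ENNReal Pointwise

namespace Pool.Agent.Y203.Biased

open Pool.Agent.H443R3 Pool.Agent.H443R3.Attractive
open Pool.Agent.Results.MP_417bbc_pr.BiasedNoiseErgodic (pmf_sum pmf_ext errorLevel noise)

variable {d : ℕ}

/-! ### The growth of the pasts -/

/-- The box `[-r, r]^d`. -/
noncomputable def box (d r : ℕ) : Finset (Site d) :=
  Finset.Icc (fun _ => -(r : ℤ)) (fun _ => (r : ℤ))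

theorem card_box (d r : ℕ) : (box d r).card = (2 * r + 1) ^ d := by
  unfold box
  rw [Pi.card_Icc]
  simp only [Int.card_Icc, Finset.prod_const, Finset.card_univ, Fintype.card_fin]
  congr 1
  omega

theorem mem_box {r : ℕ} {i : Site d} : i ∈ box d r ↔ ∀ j, -(r : ℤ) ≤ i j ∧ i j ≤ r := by
  unfold box
  rw [Finset.mem_Icc, Pi.le_def, Pi.le_def]
  exact ⟨fun h j => ⟨h.1 j, h.2 j⟩, fun h => ⟨fun j => (h j).1, fun j => (h j).2⟩⟩

theorem exists_radius (N : Finset (Site d)) : ∃ R : ℕ, N ⊆ box d R := by
  refine ⟨∑ n ∈ N, ∑ j, (n j).natAbs, fun n hn => ?_⟩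
  rw [mem_box]
  intro j
  have h1 : (n j).natAbs ≤ ∑ j, (n j).natAbs :=
    Finset.single_le_sum (f := fun j => (n j).natAbs) (fun _ _ => Nat.zero_le _)
      (Finset.mem_univ j)
  have h2 : ∑ j, (n j).natAbs ≤ ∑ n ∈ N, ∑ j, (n j).natAbs :=
    Finset.single_le_sum (f := fun n : Site d => ∑ j, (n j).natAbs) (fun _ _ => Nat.zero_le _) hn
  have h3 : ((n j).natAbs : ℤ) ≤ ((∑ n ∈ N, ∑ j, (n j).natAbs : ℕ) : ℤ) := by
    exact_mod_cast h1.trans h2
  omega

theorem add_box {R r : ℕ} {N A : Finset (Site d)} (hN : N ⊆ box d R) (hA : A ⊆ box d r) :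
    A + N ⊆ box d (r + R) := by
  intro i hi
  obtain ⟨a, ha, n, hn, rfl⟩ := Finset.mem_add.1 hi
  have h1 := mem_box.1 (hA ha)
  have h2 := mem_box.1 (hN hn)
  rw [mem_box]
  intro j
  have := h1 j
  have := h2 j
  simp only [Pi.add_apply]
  push_cast
  constructor <;> omega

/-- The past of the origin. -/
def past (F : MCA d) (t : ℕ) (A : Finset (Site d)) : Finset (Site d) :=
  (fun B => B + F.nbhd)^[t] A

theorem past_box {F : MCA d} {R : ℕ} (hN : F.nbhd ⊆ box d R) (t : ℕ) :
    ∀ (r : ℕ) (A : Finset (Site d)), A ⊆ box d r → past F t A ⊆ box d (r + t * R) := by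
  induction t with
  | zero => intro r A hA; rw [Nat.zero_mul, Nat.add_zero]; exact hA
  | succ t ih =>
    intro r A hA
    have h1 := ih (r + R) (A + F.nbhd) (add_box hN hA)
    have e : r + R + t * R = r + (t + 1) * R := by ring
    rw [e] at h1
    exact h1

theorem card_past {F : MCA d} {R : ℕ} (hN : F.nbhd ⊆ box d R) {t : ℕ} (ht : 1 ≤ t) :
    ((past F t {0}).card : ℝ) ≤ (2 * R + 1) ^ d * (t : ℝ) ^ d := by
  have h1 := past_box hN t 0 {0} (by
    intro i hi
    rw [Finset.mem_singleton] at hi
    subst hi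
    rw [mem_box]
    intro j
    simp)
  have h2 := Finset.card_le_card h1
  rw [card_box] at h2
  have h3 : ((past F t {0}).card : ℝ) ≤ ((2 * (0 + t * R) + 1) ^ d : ℕ) := by exact_mod_cast h2
  refine h3.trans ?_
  push_cast
  rw [← mul_pow]
  apply pow_le_pow_left₀ (by positivity)
  have : (1 : ℝ) ≤ t := by exact_mod_cast ht
  have hR : (0 : ℝ) ≤ R := Nat.cast_nonneg R
  nlinarith

/-! ### The main theorem -/

/-- **Automata which do not erode the islands of `b` are ergodic under biased noise.** -/
theorem ergodic_of_not_erodes (F : MCA d) (b : Bool) (hF : ¬ F.Erodes b) {ε : ℝ} (hε : 0 < ε)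
    (hε1 : ε < 1) : ∃ δ₀ : ℝ, 0 < δ₀ ∧ ∀ δ : ℝ, 0 ≤ δ → δ < δ₀ → ∀ θ : Bool → PMF Bool,
      θ (!b) b = ENNReal.ofReal ε → θ b (!b) = ENNReal.ofReal δ →
        ∃ π : Measure (Config d Bool), ErgodicWith (noisy F θ) π := by
  unfold MCA.Erodes at hF
  push Not at hF
  obtain ⟨K, hK0⟩ := hF
  have hK : ∀ t, ∃ i, F.map^[t] (island b K) i = b := by
    intro t
    obtain ⟨i, hi⟩ := hK0 t
    refine ⟨i, ?_⟩
    cases hv : F.map^[t] (island b K) i <;> cases b <;> simp_all
  obtain ⟨R, hR⟩ := exists_radius F.nbhd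
  set p : ℝ := ε ^ K.card with hp
  have hp0 : 0 < p := by positivity
  have hp1 : p ≤ 1 := pow_le_one₀ hε.le hε1.le
  have hlim := tendsto_pow_const_mul_const_pow_of_lt_one d (r := 1 - p) (by linarith)
    (by linarith)
  have hlim' : Tendsto (fun n : ℕ => (2 * (R : ℝ) + 1) ^ d * ((n : ℝ) ^ d * (1 - p) ^ n)) atTop
      (𝓝 0) := by
    simpa using hlim.const_mul ((2 * (R : ℝ) + 1) ^ d)
  obtain ⟨T, hT, hT1⟩ := ((hlim'.eventually_lt_const (show (0 : ℝ) < 1 / 2 by norm_num)).and
    (eventually_ge_atTop 1)).exists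
  set M : ℝ := (2 * R + 1) ^ d * (T : ℝ) ^ d with hM
  have hTr : (1 : ℝ) ≤ T := by exact_mod_cast hT1
  have hM0 : 0 < M := by positivity
  set V : ℝ := (vol F T {0} : ℝ) with hV
  have hV0 : 0 ≤ V := Nat.cast_nonneg _
  refine ⟨min (1 - ε) (1 / (4 * (V * M + 1))), lt_min (by linarith) (by positivity), ?_⟩
  intro δ hδ hδ0 θ h1 h2
  have hδ1 : δ < 1 - ε := lt_of_lt_of_le hδ0 (min_le_left _ _)
  have hδ2 : δ < 1 / (4 * (V * M + 1)) := lt_of_lt_of_le hδ0 (min_le_right _ _)
  have hRep : Nonempty (Rep (noisy F θ)) := by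
    cases b with
    | true => exact ⟨rep hε.le hδ (by linarith) h1 h2⟩
    | false => exact ⟨rep hδ hε.le (by linarith) h2 h1⟩
  obtain ⟨Rp⟩ := hRep
  apply ergodic_of_gap Rp
  have hdep : DependsOn ((noisy F θ).op^[T] (e 0)) (past F T {0} : Set (Site d)) :=
    (noisy F θ).op_iterate_dependsOn T (e_dependsOn (0 : Site d))
  refine gap_tendsto Rp (T := T) (past F T {0}) hdep
    (gap_le b hε hδ (by linarith) h1 h2 hK T) ?_
  have hcard := card_past hR hT1
  rw [← hM] at hcard
  have hr0 : 0 ≤ (1 - p) ^ T := pow_nonneg (by linarith) _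
  have e1 : (1 - p) ^ T * M < 1 / 2 := by
    have : (1 - p) ^ T * M = (2 * (R : ℝ) + 1) ^ d * ((T : ℝ) ^ d * (1 - p) ^ T) := by
      rw [hM]; ring
    rw [this]; exact hT
  have e2 : V * δ * M ≤ 1 / 4 := by
    rw [lt_div_iff₀ (by positivity)] at hδ2
    nlinarith [mul_nonneg hV0 hM0.le]
  calc ((1 - p) ^ T + V * δ) * ((past F T {0}).card : ℝ)
      ≤ ((1 - p) ^ T + V * δ) * M :=
        mul_le_mul_of_nonneg_left hcard (add_nonneg hr0 (mul_nonneg hV0 hδ))
    _ = (1 - p) ^ T * M + V * δ * M := by ring
    _ < 1 := by linarith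

/-- Arbitrarily small positive noise which makes a non-eroding automaton ergodic. -/
theorem exists_noise (F : MCA d) (b : Bool) (hF : ¬ F.Erodes b) {ε₀ : ℝ} (hε₀ : 0 < ε₀) :
    ∃ θ : Bool → PMF Bool, (∀ a c, 0 < θ a c) ∧ errorLevel θ ≤ ε₀ ∧
      ∃ π : Measure (Config d Bool), ErgodicWith (noisy F θ) π := by
  set ε : ℝ := min ε₀ (1 / 2) with hε
  have hε0 : 0 < ε := lt_min hε₀ (by norm_num)
  have hε2 : ε ≤ 1 / 2 := min_le_right _ _
  obtain ⟨δ₀, hδ₀, hδ⟩ := ergodic_of_not_erodes F b hF hε0 (by linarith)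
  set δ : ℝ := min ε (δ₀ / 2) with hδd
  have hδ0 : 0 < δ := lt_min hε0 (by linarith)
  have hδε : δ ≤ ε := min_le_left _ _
  have hδδ : δ < δ₀ := lt_of_le_of_lt (min_le_right _ _) (by linarith)
  have key : ∀ p q : ℝ, 0 < p → 0 < q → p ≤ 1 / 2 → q ≤ 1 / 2 → p ≤ ε₀ → q ≤ ε₀ →
      ∃ θ : Bool → PMF Bool, (∀ a c, 0 < θ a c) ∧ errorLevel θ ≤ ε₀ ∧
        θ false true = ENNReal.ofReal p ∧ θ true false = ENNReal.ofReal q := by
    intro p q hp hq hp2 hq2 hp3 hq3
    have h1 : ENNReal.ofReal p ≤ 1 := by
      rw [← ENNReal.ofReal_one]; exact ENNReal.ofReal_le_ofReal (by linarith)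
    have h2 : ENNReal.ofReal q ≤ 1 := by
      rw [← ENNReal.ofReal_one]; exact ENNReal.ofReal_le_ofReal (by linarith)
    have v1 : noise p q h1 h2 false true = ENNReal.ofReal p := by simp [noise]
    have v2 : noise p q h1 h2 false false = ENNReal.ofReal (1 - p) := by
      rw [ENNReal.ofReal_sub _ hp.le, ENNReal.ofReal_one]; simp [noise]
    have v3 : noise p q h1 h2 true true = ENNReal.ofReal (1 - q) := by
      rw [ENNReal.ofReal_sub _ hq.le, ENNReal.ofReal_one]; simp [noise]
    have v4 : noise p q h1 h2 true false = ENNReal.ofReal q := by simp [noise]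
    refine ⟨noise p q h1 h2, ?_, ?_, v1, v4⟩
    · intro a c
      cases a <;> cases c
      · rw [v2, ENNReal.ofReal_pos]; linarith
      · rw [v1, ENNReal.ofReal_pos]; exact hp
      · rw [v4, ENNReal.ofReal_pos]; exact hq
      · rw [v3, ENNReal.ofReal_pos]; linarith
    · unfold errorLevel
      rw [v2, v3, ENNReal.toReal_ofReal (by linarith), ENNReal.toReal_ofReal (by linarith)]
      apply max_le <;> linarith
  have hεε : ε ≤ ε₀ := min_le_left _ _
  cases b with
  | true =>
    obtain ⟨θ, hpos, herr, h1, h2⟩ := key ε δ hε0 hδ0 hε2 (by linarith) hεε (by linarith)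
    exact ⟨θ, hpos, herr, hδ δ hδ0.le hδδ θ h1 h2⟩
  | false =>
    obtain ⟨θ, hpos, herr, h1, h2⟩ := key δ ε hδ0 hε0 (by linarith) hε2 (by linarith) hεε
    exact ⟨θ, hpos, herr, hδ δ hδ0.le hδδ θ h2 h1⟩

/-! ### Stable blocks -/

/-- An automaton with a nonempty block of `b` which is never destroyed does not erode `b`. -/
theorem not_erodes_of_block {F : MCA d} {b : Bool} {K : Finset (Site d)} (hne : K.Nonempty)
    (h : ∀ x : Config d Bool, (∀ i ∈ K, x i = b) → ∀ i ∈ K, F.map x i = b) : ¬ F.Erodes b := by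
  intro hE
  obtain ⟨t, ht⟩ := hE K
  have h1 : ∀ t, ∀ i ∈ K, F.map^[t] (island b K) i = b := by
    intro t
    induction t with
    | zero => intro i hi; simp [island, hi]
    | succ t ih =>
      rw [Function.iterate_succ_apply']
      exact h _ ih
  obtain ⟨i, hi⟩ := hne
  have h2 := h1 t i hi
  rw [ht i] at h2
  cases b <;> simp at h2

/-! ### Nearest neighbour majority in dimension `d` -/

/-- The neighbourhood `{0, ± e_1, …, ± e_d}` in `ℤ^d`. -/
def cross (d : ℕ) : Finset (Site d) :=
  insert 0 ((Finset.univ.image fun j : Fin d => (Pi.single j 1 : Site d)) ∪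
    Finset.univ.image fun j : Fin d => (Pi.single j (-1) : Site d))

/-- The nearest neighbour majority automaton in dimension `d`: the new symbol at `i` is the symbol
held by more than half of the sites `i, i ± e_1, …, i ± e_d`. -/
def majority (d : ℕ) : MCA d where
  nbhd := cross d
  f := fun u => decide ((cross d).card < 2 * (Finset.univ.filter (fun n : cross d =>
    u n = true)).card)
  mono := by
    intro u v h
    rw [Bool.le_iff_imp]
    simp only [decide_eq_true_eq]
    intro h3
    refine h3.trans_le (Nat.mul_le_mul_left 2 (Finset.card_le_card ?_))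
    intro n hn
    rw [Finset.mem_filter] at hn ⊢
    refine ⟨hn.1, ?_⟩
    have := h n
    rw [hn.2] at this
    exact Bool.eq_true_of_true_le this

theorem card_cross_le (d : ℕ) : (cross d).card ≤ 2 * d + 1 := by
  unfold cross
  refine (Finset.card_insert_le _ _).trans ?_
  have h1 := Finset.card_union_le (Finset.univ.image fun j : Fin d => (Pi.single j 1 : Site d))
    (Finset.univ.image fun j : Fin d => (Pi.single j (-1) : Site d))
  have h2 : (Finset.univ.image fun j : Fin d => (Pi.single j 1 : Site d)).card ≤ d := by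
    simpa using Finset.card_image_le (s := (Finset.univ : Finset (Fin d)))
      (f := fun j : Fin d => (Pi.single j 1 : Site d))
  have h3 : (Finset.univ.image fun j : Fin d => (Pi.single j (-1) : Site d)).card ≤ d := by
    simpa using Finset.card_image_le (s := (Finset.univ : Finset (Fin d)))
      (f := fun j : Fin d => (Pi.single j (-1) : Site d))
  omega

/-- If `d + 1` sites of the neighbourhood carry `b`, then the majority is `b`. -/
theorem majority_of (b : Bool) (u : cross d → Bool) (A : Finset (Site d)) (hA : A ⊆ cross d)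
    (hc : d + 1 ≤ A.card) (hx : ∀ (n : Site d) (hn : n ∈ A), u ⟨n, hA hn⟩ = b) :
    (majority d).f u = b := by
  have hcc := card_cross_le d
  have hinj : (A.attach.image (fun n => (⟨n.1, hA n.2⟩ : cross d))).card = A.card := by
    rw [Finset.card_image_of_injective, Finset.card_attach]
    intro n m hnm
    simp only [Subtype.mk.injEq] at hnm
    exact Subtype.ext hnm
  have hsub : A.attach.image (fun n => (⟨n.1, hA n.2⟩ : cross d)) ⊆
      Finset.univ.filter (fun n : cross d => u n = b) := by
    intro n hn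
    rw [Finset.mem_image] at hn
    obtain ⟨m, _, rfl⟩ := hn
    rw [Finset.mem_filter]
    exact ⟨Finset.mem_univ _, hx m.1 m.2⟩
  have hle := Finset.card_le_card hsub
  rw [hinj] at hle
  cases b with
  | true =>
    show decide _ = true
    rw [decide_eq_true_eq]
    omega
  | false =>
    show decide _ = false
    rw [decide_eq_false_iff_not, not_lt]
    have hsum : (Finset.univ.filter (fun n : cross d => u n = true)).card +
        (Finset.univ.filter (fun n : cross d => u n = false)).card = (cross d).card := by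
      have h1 := Finset.card_filter_add_card_filter_not (s := (Finset.univ : Finset (cross d)))
        (fun n => u n = true)
      have h2 : (Finset.univ.filter (fun n : cross d => ¬ u n = true)) =
          Finset.univ.filter (fun n : cross d => u n = false) := by
        apply Finset.filter_congr
        intro n _
        simp
      rw [h2, Finset.card_univ, Fintype.card_coe] at h1
      exact h1
    omega

/-- The cube `{0, 1}^d`. -/
def cube (d : ℕ) : Finset (Site d) := Fintype.piFinset fun _ => {0, 1}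

theorem majority_block (b : Bool) (x : Config d Bool) (hx : ∀ i ∈ cube d, x i = b) (i : Site d)
    (hi : i ∈ cube d) : (majority d).map x i = b := by
  have hi' : ∀ j, i j = 0 ∨ i j = 1 := by
    intro j
    have := Fintype.mem_piFinset.1 hi j
    simpa using this
  -- the direction which stays in the cube
  set s : Fin d → ℤ := fun j => if i j = 0 then 1 else -1 with hs
  have hs0 : ∀ j, s j ≠ 0 := by
    intro j; simp only [hs]; split_ifs <;> decide
  set A : Finset (Site d) := insert 0 (Finset.univ.image fun j : Fin d => (Pi.single j (s j) : Site d))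
    with hAdef
  have hA : A ⊆ cross d := by
    intro n hn
    rw [hAdef, Finset.mem_insert, Finset.mem_image] at hn
    unfold cross
    rw [Finset.mem_insert, Finset.mem_union, Finset.mem_image, Finset.mem_image]
    rcases hn with h | ⟨j, _, rfl⟩
    · exact Or.inl h
    · right
      by_cases h : i j = 0
      · left
        exact ⟨j, Finset.mem_univ _, by simp [hs, h]⟩
      · right
        exact ⟨j, Finset.mem_univ _, by simp [hs, h]⟩
  have hinj : Function.Injective fun j : Fin d => (Pi.single j (s j) : Site d) := by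
    intro j k hjk
    by_contra hne
    have h1 := congrFun hjk j
    simp only [Pi.single_eq_same] at h1
    rw [Pi.single_eq_of_ne hne] at h1
    exact hs0 j h1
  have hc : d + 1 ≤ A.card := by
    rw [hAdef, Finset.card_insert_of_notMem, Finset.card_image_of_injective _ hinj,
      Finset.card_univ, Fintype.card_fin]
    intro h
    obtain ⟨j, _, hj⟩ := Finset.mem_image.1 h
    have h1 := congrFun hj j
    simp only [Pi.single_eq_same, Pi.zero_apply] at h1
    exact hs0 j h1
  refine majority_of b _ A hA hc ?_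
  intro n hn
  apply hx
  unfold cube
  rw [Fintype.mem_piFinset]
  intro k
  rw [hAdef, Finset.mem_insert, Finset.mem_image] at hn
  rcases hn with h | ⟨j, _, rfl⟩
  · subst h
    have := hi' k
    simpa using this
  · by_cases hjk : k = j
    · subst hjk
      rcases hi' k with h | h
      · simp [hs, h]
      · simp [hs, h]
    · have := hi' k
      simp only [Pi.add_apply, Pi.single_eq_of_ne hjk, add_zero]
      simpa using this

theorem majority_not_erodes (d : ℕ) (b : Bool) : ¬ (majority d).Erodes b :=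
  not_erodes_of_block (K := cube d) ⟨fun _ => 0, by
    unfold cube; rw [Fintype.mem_piFinset]; intro j; simp⟩ (majority_block b)

end Pool.Agent.Y203.Biased
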